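import Pool.Agent.Lib.MP_ac307a_co.Convert
import Pool.Agent.Lib.MP_ac307a_co.Upper

/-! The optimal constant for compatible Hamilton cycles in Dirac graphs is one sixth. -/

open Pool.Agent.Lib.MP_ac307a_co

theorem Pool.Agent.Results.MP_ac307a_co.MuStar.result :
    IsLUB {μ : ℝ | 0 < μ ∧ ∃ n₀ : ℕ, ∀ n : ℕ, n₀ ≤ n → 3 ≤ n →
      ∀ (G : SimpleGraph (Fin n)) [DecidableRel G.Adj], (n : ℝ) / 2 ≤ G.minDegree →
        ∀ F : Fin n → Set (Sym2 (Sym2 (Fin n))), IsIncompatibilitySystem G F →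
          IsBoundedSystem G F (μ * n) → HasCompatibleHamiltonCycle G F} (1 / 6) := by
  constructor
  · rintro μ ⟨-, n0, h⟩
    by_contra hcon
    obtain ⟨n, h1, h2, G, inst, h3, F, h4, h5, h6⟩ := upper_bound (not_le.1 hcon) n0
    exact h6 (h n h1 h2 G h3 F h4 h5)
  · intro b hb
    refine le_of_forall_lt_imp_le_of_dense fun μ hμ => ?_
    have key : ∀ μ : ℝ, 0 < μ → μ < 1 / 6 → μ ≤ b := by
      intro μ h0 h1
      obtain ⟨n0, h⟩ := lower_bound h0 h1
      refine hb ⟨h0, n0, fun n hn _ G _ hd F hF hB => ?_⟩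
      exact h (Fin n) G (by simpa using hn) (by simpa using hd) F hF (by simpa using hB)
    by_cases h0 : 0 < μ
    · exact key μ h0 hμ
    · linarith [key (1 / 12) (by norm_num) (by norm_num)]
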